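import Mathlib
import Pool.Agent.H602R3.BanachFin

namespace Pool.Agent.Results.MP_76953b_al.NoFiniteBoundary

open Filter Topology

/-- `d` is an integer valued, left invariant, proper metric on the group `G`. -/
structure IsProperIntegerMetric {G : Type*} [Group G] (d : G → G → ℝ) : Prop where
  dist_self : ∀ x, d x x = 0
  eq_of_dist_eq_zero : ∀ x y, d x y = 0 → x = y
  symm : ∀ x y, d x y = d y x
  triangle : ∀ x y z, d x z ≤ d x y + d y z
  integer : ∀ x y, ∃ n : ℤ, d x y = n
  left_invariant : ∀ g x y, d (g * x) (g * y) = d x y
  proper : ∀ (x : G) (r : ℝ), {y | d x y ≤ r}.Finite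

/-- The metric-functional `b_x(y) = d(x,y) - d(x,1)`. -/
def b {G : Type*} [Group G] (d : G → G → ℝ) (x y : G) : ℝ := d x y - d x 1

/-- The metric-functional boundary: all pointwise limits of `b_{x_n}` along sequences with
`d(x_n,1) → ∞`. -/
def boundary {G : Type*} [Group G] (d : G → G → ℝ) : Set (G → ℝ) :=
  {f | ∃ x : ℕ → G, Tendsto (fun n => d (x n) 1) atTop atTop ∧
    ∀ y, Tendsto (fun n => b d (x n) y) atTop (𝓝 (f y))}

/-- The word metric of a set `S`: least length of a word in `S` with product `x⁻¹ y`. -/
noncomputable def wordDist {G : Type*} [Group G] (S : Set G) (x y : G) : ℕ :=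
  sInf {n | ∃ l : List G, l.length = n ∧ (∀ s ∈ l, s ∈ S) ∧ l.prod = x⁻¹ * y}

/-- A Banach metric: an integer valued, left invariant, proper metric, quasi-isometric (by the
identity map) to a Cayley metric, all of whose boundary functionals are unbounded. -/
structure IsBanachMetric {G : Type*} [Group G] (d : G → G → ℝ) : Prop
    extends IsProperIntegerMetric d where
  quasi_isometric : ∃ S : Set G, S.Finite ∧ (∀ s ∈ S, s⁻¹ ∈ S) ∧ Subgroup.closure S = ⊤ ∧
    ∃ A B : ℝ, 0 < A ∧ 0 ≤ B ∧ ∀ x y, A⁻¹ * wordDist S x y - B ≤ d x y ∧
      d x y ≤ A * wordDist S x y + B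
  unbounded : ∀ f ∈ boundary d, ¬ ∃ M : ℝ, ∀ y, |f y| ≤ M

/-- A group is virtually cyclic if it has a cyclic subgroup of finite index. -/
def VirtuallyCyclic (G : Type*) [Group G] : Prop :=
  ∃ C : Subgroup G, IsCyclic C ∧ C.FiniteIndex

open Pool.Agent.H602R3.BanachCore in
/-- **Negative answer to Q1.** If `G` is a finitely generated group which is not virtually
cyclic and `d` is any integer valued, left invariant, proper metric on `G` (for instance any
Banach metric, see `banach` below), then the metric-functional boundary of `(G,d)` is infinite. -/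
theorem result {G : Type*} [Group G] [Group.FG G] (hG : ¬ VirtuallyCyclic G)
    (d : G → G → ℝ) (hd : IsProperIntegerMetric d) : (boundary d).Infinite := by
  classical
  intro hfin
  apply hG
  have hint : ∀ g : G, ∃ n : ℤ, d 1 g = n := fun g => hd.integer 1 g
  choose N hN using hint
  have hdN : ∀ x y : G, d x y = N (x⁻¹ * y) := by
    intro x y
    rw [← hN, ← hd.left_invariant x⁻¹ x y, inv_mul_cancel]
  have hnorm : IsNorm N := by
    refine ⟨fun g => ?_, fun g => ?_, fun g h => ?_, fun r => ?_⟩
    · have h1 := hd.triangle 1 g 1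
      rw [hd.dist_self, hd.symm g 1, hN] at h1
      have : (0 : ℝ) ≤ N g := by linarith
      exact_mod_cast this
    · have : (N g⁻¹ : ℝ) = N g := by
        rw [← hN, ← hN, ← hd.left_invariant g 1 g⁻¹, mul_one, mul_inv_cancel, hd.symm]
      exact_mod_cast this
    · have h1 := hd.triangle 1 g (g * h)
      rw [hdN g (g * h), inv_mul_cancel_left, hN, hN] at h1
      exact_mod_cast h1
    · refine (hd.proper 1 r).subset fun g hg => ?_
      simp only [Set.mem_ofPred_eq] at hg ⊢
      rw [hN]
      exact_mod_cast hg
  have hL : (LimF N).Finite := by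
    let emb : (G → ℤ) → (G → ℝ) := fun f y => (f y : ℝ)
    have hemb : Function.Injective emb := by
      intro f g hfg
      funext y
      have := congrFun hfg y
      simpa [emb] using this
    have hmaps : ∀ f ∈ LimF N, emb f ∈ boundary d := by
      intro f hf
      -- countability of G
      have hc : Countable G := by
        have hU : (Set.univ : Set G) = ⋃ n : ℕ, {g | N g ≤ (n : ℤ)} := by
          symm
          apply Set.eq_univ_of_forall
          intro g
          exact Set.mem_iUnion.2 ⟨(N g).toNat, Int.self_le_toNat _⟩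
        rw [← Set.countable_univ_iff, hU]
        exact Set.countable_iUnion fun n => (hnorm.proper (n : ℤ)).countable
      obtain ⟨e, he⟩ := exists_surjective_nat G
      -- choose u_n agreeing with f on e '' [0,n] and with N u_n ≥ n
      have hex : ∀ n : ℕ, ∃ u : G, (n : ℤ) ≤ N u ∧
          ∀ y ∈ (Finset.range (n + 1)).image e, N (u * y) - N u = f y := by
        intro n
        have h1 := hf ((Finset.range (n + 1)).image e)
        obtain ⟨u, hu, hu2⟩ := (h1.sdiff (hnorm.proper (n : ℤ))).nonempty
        refine ⟨u, ?_, hu⟩
        simp only [Set.mem_ofPred_eq, not_le] at hu2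
        exact hu2.le
      choose u hu1 hu2 using hex
      refine ⟨fun n => (u n)⁻¹, ?_, fun y => ?_⟩
      · have : ∀ n, d (u n)⁻¹ 1 = N (u n) := by
          intro n
          rw [hdN, inv_inv, mul_one]
        simp only [this]
        refine tendsto_atTop_mono (fun n => ?_) tendsto_natCast_atTop_atTop
        exact_mod_cast hu1 n
      · obtain ⟨k, rfl⟩ := he y
        refine tendsto_const_nhds.congr' ?_
        filter_upwards [eventually_ge_atTop k] with n hn
        have h3 := hu2 n (e k) (Finset.mem_image_of_mem _ (Finset.mem_range.2 (by omega)))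
        simp only [b, hdN, inv_inv, mul_one, emb]
        rw [← h3]
        push_cast
        rfl
    refine Set.Finite.of_finite_image (f := emb) (hfin.subset ?_) hemb.injOn
    rintro _ ⟨f, hf, rfl⟩
    exact hmaps f hf
  exact virtuallyCyclic_of_finite hnorm hL

/-- The same statement for Banach metrics, literally the negated form of Q1. -/
theorem banach {G : Type*} [Group G] [Group.FG G] (hG : ¬ VirtuallyCyclic G)
    (d : G → G → ℝ) (hd : IsBanachMetric d) : (boundary d).Infinite :=
  result hG d hd.toIsProperIntegerMetric

end Pool.Agent.Results.MP_76953b_al.NoFiniteBoundary
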